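import Pool.Agent.X119.CC.Stm

set_option autoImplicit false

namespace Pool.Agent.X104.CC

open Polynomial Filter Topology Pool.Agent.X119.CC

theorem h_top : Tendsto (fun u : ℝ => Real.exp u * Real.exp (-Real.exp u)) atTop (𝓝 0) := by
  have h := (Real.tendsto_pow_mul_exp_neg_atTop_nhds_zero 1).comp Real.tendsto_exp_atTop
  refine h.congr fun u => ?_
  simp

theorem h_bot : Tendsto (fun u : ℝ => Real.exp u * Real.exp (-Real.exp u)) atBot (𝓝 0) := by
  refine squeeze_zero (fun u => by positivity) (fun u => ?_) Real.tendsto_exp_atBot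
  have h1 : Real.exp (-Real.exp u) ≤ 1 := Real.exp_le_one_iff.mpr (by linarith [Real.exp_pos u])
  nlinarith [Real.exp_pos u]

theorem gm_formula (u : ℝ) : gg 1 (-1) u =
    Real.exp u * Real.exp (-Real.exp u) / (1 + Real.exp (-Real.exp u)) := by
  have hy : 0 < Real.exp (-Real.exp u) := Real.exp_pos _
  simp only [gg, cyclotomic_one, derivative_sub, derivative_X, derivative_one, sub_zero, eval_one,
    eval_sub, eval_X]
  have h3 : (-1 : ℝ) * Real.exp (-Real.exp u) - 1 = -(1 + Real.exp (-Real.exp u)) := by ring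
  rw [h3, one_div, inv_neg, div_eq_mul_inv]
  ring

theorem t_GM : S_GM := by
  have hf : gg 1 (-1) = fun u => Real.exp u * Real.exp (-Real.exp u) /
      (1 + Real.exp (-Real.exp u)) := funext gm_formula
  have h0 : ∀ u, 0 < gg 1 (-1) u := fun u => by rw [gm_formula]; positivity
  have hle : ∀ u, gg 1 (-1) u ≤ Real.exp u * Real.exp (-Real.exp u) := fun u => by
    rw [gm_formula]
    exact div_le_self (by positivity) (by linarith [Real.exp_pos (-Real.exp u)])
  refine ⟨h0, ?_, squeeze_zero (fun u => (h0 u).le) hle h_top,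
    squeeze_zero (fun u => (h0 u).le) hle h_bot⟩
  rw [hf]
  refine Continuous.div (by fun_prop) (by fun_prop) fun u => by positivity

theorem cyc_eval {p : ℕ} (hp : p.Prime) (x : ℝ) :
    (cyclotomic p ℝ).eval x = ∑ i ∈ Finset.range p, x ^ i := by
  have := Fact.mk hp
  rw [cyclotomic_prime, eval_finsetSum]
  simp

theorem cyc_deriv {p : ℕ} (hp : p.Prime) (x : ℝ) :
    (derivative (cyclotomic p ℝ)).eval x = ∑ i ∈ Finset.range p, (i : ℝ) * x ^ (i - 1) := by
  have := Fact.mk hp
  rw [cyclotomic_prime, derivative_sum, eval_finsetSum]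
  refine Finset.sum_congr rfl fun i _ => ?_
  simp [derivative_X_pow]

theorem t_GP : S_GP := by
  intro p hp ho
  have h2 : 2 ≤ p := hp.two_le
  set x : ℝ → ℝ := fun u => 1 * Real.exp (-Real.exp u) with hx
  have hx0 : ∀ u, 0 < x u := fun u => by simp only [hx]; positivity
  have hx1 : ∀ u, x u ≤ 1 := fun u => by
    simp only [hx, one_mul]
    exact Real.exp_le_one_iff.mpr (by linarith [Real.exp_pos u])
  have hxc : Continuous x := by fun_prop
  have hC : ∀ u, 1 ≤ (cyclotomic p ℝ).eval (x u) := by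
    intro u
    rw [cyc_eval hp]
    have := Finset.single_le_sum (f := fun i => x u ^ i) (s := Finset.range p)
      (fun i _ => pow_nonneg (hx0 u).le i) (Finset.mem_range.mpr (show 0 < p by lia))
    simpa using this
  have hD0 : ∀ u, 0 < (derivative (cyclotomic p ℝ)).eval (x u) := by
    intro u
    rw [cyc_deriv hp]
    have := Finset.single_le_sum (f := fun i : ℕ => (i : ℝ) * x u ^ (i - 1)) (s := Finset.range p)
      (fun i _ => mul_nonneg (Nat.cast_nonneg i) (pow_nonneg (hx0 u).le _))
      (Finset.mem_range.mpr (show 1 < p by lia))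
    have h3 : (((1 : ℕ) : ℝ) * x u ^ (1 - 1)) = 1 := by simp
    linarith [h3.symm.le.trans this]
  have hD1 : ∀ u, (derivative (cyclotomic p ℝ)).eval (x u) ≤ (p : ℝ) * p := by
    intro u
    rw [cyc_deriv hp]
    calc ∑ i ∈ Finset.range p, (i : ℝ) * x u ^ (i - 1) ≤ ∑ i ∈ Finset.range p, (p : ℝ) := by
          refine Finset.sum_le_sum fun i hi => ?_
          have h4 : (i : ℝ) ≤ p := by exact_mod_cast (Finset.mem_range.mp hi).le
          have h5 : x u ^ (i - 1) ≤ 1 := pow_le_one₀ (hx0 u).le (hx1 u)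
          have h6 : 0 ≤ x u ^ (i - 1) := pow_nonneg (hx0 u).le _
          have h7 : (0 : ℝ) ≤ i := Nat.cast_nonneg i
          nlinarith
      _ = (p : ℝ) * p := by simp
  have h0 : ∀ u, 0 < gg p 1 u := fun u => by
    have a1 := hD0 u
    have a2 : 0 < (cyclotomic p ℝ).eval (x u) := lt_of_lt_of_le one_pos (hC u)
    have a3 := hx0 u
    show 0 < Real.exp u * x u * ((derivative (cyclotomic p ℝ)).eval (x u) /
      (cyclotomic p ℝ).eval (x u))
    positivity
  have hle : ∀ u, gg p 1 u ≤ (p : ℝ) * p * (Real.exp u * Real.exp (-Real.exp u)) := fun u => by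
    show Real.exp u * x u * ((derivative (cyclotomic p ℝ)).eval (x u) /
      (cyclotomic p ℝ).eval (x u)) ≤ _
    have a1 : (derivative (cyclotomic p ℝ)).eval (x u) / (cyclotomic p ℝ).eval (x u) ≤
        (p : ℝ) * p := (div_le_self (hD0 u).le (hC u)).trans (hD1 u)
    have a2 : x u = Real.exp (-Real.exp u) := by simp only [hx, one_mul]
    have a3 : 0 ≤ Real.exp u * x u := by have := hx0 u; positivity
    calc Real.exp u * x u * ((derivative (cyclotomic p ℝ)).eval (x u) /
      (cyclotomic p ℝ).eval (x u)) ≤ Real.exp u * x u * ((p : ℝ) * p) := by gcongr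
      _ = _ := by rw [a2]; ring
  have ht := h_top.const_mul ((p : ℝ) * p)
  have hb := h_bot.const_mul ((p : ℝ) * p)
  rw [mul_zero] at ht hb
  refine ⟨h0, ?_, squeeze_zero (fun u => (h0 u).le) hle ht,
    squeeze_zero (fun u => (h0 u).le) hle hb⟩
  have hg : gg p 1 = fun u => Real.exp u * x u * ((derivative (cyclotomic p ℝ)).eval (x u) /
      (cyclotomic p ℝ).eval (x u)) := rfl
  rw [hg]
  refine Continuous.mul (by fun_prop) (Continuous.div ((Polynomial.continuous _).comp hxc)
    ((Polynomial.continuous _).comp hxc) fun u => (lt_of_lt_of_le one_pos (hC u)).ne')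

end Pool.Agent.X104.CC
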