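import Pool.Agent.X119.CC.Stm

set_option autoImplicit false

namespace Pool.Agent.X104.CC

open Polynomial Filter Topology Pool.Agent.X119.CC

theorem cyc_ne_zero {n : ℕ} (hn : 0 < n) {x : ℝ} (hx : |x| < 1) :
    (cyclotomic n ℝ).eval x ≠ 0 := by
  intro h
  have h1 : (X ^ n - 1 : ℝ[X]).eval x = 0 := by
    obtain ⟨q, hq⟩ := cyclotomic.dvd_X_pow_sub_one n ℝ
    rw [hq, eval_mul, h, zero_mul]
  have h2 : x ^ n = 1 := by
    simp only [eval_sub, eval_pow, eval_X, eval_one] at h1
    linarith
  have h3 : |x| ^ n = 1 := by rw [← abs_pow, h2, abs_one]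
  have h4 : |x| ^ n < 1 := pow_lt_one₀ (abs_nonneg x) hx hn.ne'
  linarith

theorem step {σ : ℝ} (hσ : σ = 1 ∨ σ = -1) {n : ℕ} (hn : 0 < n) {p : ℕ} (hp : p.Prime)
    (ho : Odd p) (hd : ¬ p ∣ n) (u : ℝ) :
    gg (n * p) σ u = gg n σ (u + Real.log p) - gg n σ u := by
  have hp0 : (0 : ℝ) < p := by exact_mod_cast hp.pos
  set t : ℝ := Real.exp u with ht
  have ht0 : 0 < t := Real.exp_pos u
  have hex : Real.exp (u + Real.log p) = p * t := by
    rw [Real.exp_add, Real.exp_log hp0, mul_comm]
  set x : ℝ := σ * Real.exp (-t) with hx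
  have hσp : σ ^ p = σ := by
    rcases hσ with h | h <;> rw [h]
    · exact one_pow p
    · exact ho.neg_one_pow
  have hxp : σ * Real.exp (-(p * t)) = x ^ p := by
    rw [hx, mul_pow, hσp, ← Real.exp_nat_mul]
    congr 2; ring
  have habs : |x| < 1 := by
    rw [hx, abs_mul, abs_of_pos (Real.exp_pos _)]
    have h1 : |σ| = 1 := by rcases hσ with h | h <;> rw [h] <;> simp
    rw [h1, one_mul]
    exact Real.exp_lt_one_iff.mpr (by linarith)
  have ha : (cyclotomic n ℝ).eval x ≠ 0 := cyc_ne_zero hn habs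
  have hb : (cyclotomic (n * p) ℝ).eval x ≠ 0 := cyc_ne_zero (Nat.mul_pos hn hp.pos) habs
  have hE := cyclotomic_expand_eq_cyclotomic_mul hp hd ℝ
  have hc : (cyclotomic n ℝ).eval (x ^ p) =
      (cyclotomic (n * p) ℝ).eval x * (cyclotomic n ℝ).eval x := by
    have := congrArg (eval x) hE
    rwa [expand_eval, eval_mul] at this
  have hD : (derivative (cyclotomic n ℝ)).eval (x ^ p) * (p * x ^ (p - 1)) =
      (derivative (cyclotomic (n * p) ℝ)).eval x * (cyclotomic n ℝ).eval x +
      (cyclotomic (n * p) ℝ).eval x * (derivative (cyclotomic n ℝ)).eval x := by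
    have h1 := congrArg (fun q => eval x (derivative q)) hE
    simp only [derivative_expand, derivative_mul, eval_mul, eval_add, expand_eval, eval_natCast,
      eval_pow, eval_X] at h1
    exact h1
  have hxpow : x ^ p = x * x ^ (p - 1) := by
    rw [← pow_succ', Nat.sub_add_cancel hp.one_le]
  simp only [gg]
  rw [hex, ← ht, hxp, ← hx, hc]
  set a := (cyclotomic n ℝ).eval x
  set b := (cyclotomic (n * p) ℝ).eval x
  set A := (derivative (cyclotomic n ℝ)).eval x
  set B := (derivative (cyclotomic (n * p) ℝ)).eval x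
  set D := (derivative (cyclotomic n ℝ)).eval (x ^ p)
  have h2 : p * t * x ^ p * (D / (b * a)) = t * x * ((D * (p * x ^ (p - 1))) / (b * a)) := by
    rw [hxpow]; ring
  rw [h2, hD]
  field_simp
  ring

theorem t_CYC : S_CYC := by
  intro σ hσ m hm l
  induction l with
  | nil => intro _ _; simp [dif]
  | cons p l ih =>
    intro h hnd
    have hnd' := List.nodup_cons.mp hnd
    have hih := ih (fun q hq => h q (List.mem_cons_of_mem p hq)) hnd'.2
    obtain ⟨hp, ho, hpm⟩ := h p List.mem_cons_self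
    have hn : 0 < l.prod * m := by
      refine Nat.mul_pos ?_ hm
      rw [Nat.pos_iff_ne_zero, Ne, List.prod_eq_zero_iff]
      intro h0
      exact (h 0 (List.mem_cons_of_mem p h0)).1.ne_zero rfl
    have hd : ¬ p ∣ l.prod * m := by
      intro hdv
      rcases (Nat.Prime.dvd_mul hp).mp hdv with h1 | h1
      · obtain ⟨q, hq, hpq⟩ := (Prime.dvd_prod_iff hp.prime).mp h1
        have hqp := (h q (List.mem_cons_of_mem p hq)).1
        have : p = q := (Nat.prime_dvd_prime_iff_eq hp hqp).mp hpq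
        exact hnd'.1 (this ▸ hq)
      · exact hpm h1
    funext u
    have h3 : (p :: l).prod * m = (l.prod * m) * p := by rw [List.prod_cons]; ring
    rw [h3, step hσ hn hp ho hd u, hih]
    rfl

end Pool.Agent.X104.CC
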